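import Pool.Agent.H83.Soc6

set_option autoImplicit false

namespace Pool.Agent.Results.MP_40eef6_lc.LargerTuples

/-- For all `n, k ≥ 2` and all `l`, Ramsey's theorem for `(n+1)`-sets and `k` colours is not
strongly omnisciently computably reducible to Ramsey's theorem for `n`-sets and `l` colours. -/
theorem result : ∀ n k l : ℕ, 2 ≤ n → 2 ≤ k →
    ∃ c : Finset ℕ → Fin k, ∀ d : Finset ℕ → Fin l, ∃ H : Set ℕ, H.Infinite ∧
      (∃ i : Fin l, ∀ s : Finset ℕ, (↑s : Set ℕ) ⊆ H → s.card = n → d s = i) ∧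
      ∀ G : Set ℕ, G.Infinite →
        (∃ j : Fin k, ∀ s : Finset ℕ, (↑s : Set ℕ) ⊆ G → s.card = n + 1 → c s = j) →
        ¬ TuringReducible (fun m : ℕ => Part.some (Set.indicator G (fun _ => (1 : ℕ)) m))
            (fun m : ℕ => Part.some (Set.indicator H (fun _ => (1 : ℕ)) m)) := by
  intro n k l hn hk
  obtain ⟨i, rfl⟩ : ∃ i, n = i + 1 := ⟨n - 1, by omega⟩
  obtain ⟨f, hf⟩ := Pool.Agent.H83.Soc.mainG i 1 l
  refine ⟨fun s => Fin.castLE hk (f s), fun d => ?_⟩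
  obtain ⟨H, -, d0, h1, -, h2, h3⟩ := hf (fun _ => 0) d
  refine ⟨H, h1, ⟨d0, h2⟩, fun G hG ⟨j, hj⟩ hr => ?_⟩
  obtain ⟨t0, a1, a2⟩ := hG.exists_subset_card_eq (i + 1 + 1)
  obtain ⟨t, t1, t2, t3⟩ := h3 G (f t0) _ _ (fun m hm => by simp [hm])
    (fun m hm => by simp [hm]) (fun m => by by_cases h : m ∈ G <;> simp [h]) hr hG
  exact t3 (Fin.castLE_injective hk ((hj t t1 t2).trans (hj t0 a1 a2).symm))

end Pool.Agent.Results.MP_40eef6_lc.LargerTuples
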