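import Pool.Agent.H83.Soc6

set_option autoImplicit false

namespace Pool.Agent.Results.MP_40eef6_lc.MoreColours

/-- For all `n, k ≥ 2`, Ramsey's theorem for `n`-sets and `k+1` colours is not strongly
omnisciently computably reducible to Ramsey's theorem for `n`-sets and `k` colours. -/
theorem result : ∀ n k : ℕ, 2 ≤ n → 2 ≤ k →
    ∃ c : Finset ℕ → Fin (k + 1), ∀ d : Finset ℕ → Fin k, ∃ H : Set ℕ, H.Infinite ∧
      (∃ i : Fin k, ∀ s : Finset ℕ, (↑s : Set ℕ) ⊆ H → s.card = n → d s = i) ∧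
      ∀ G : Set ℕ, G.Infinite →
        (∃ j : Fin (k + 1), ∀ s : Finset ℕ, (↑s : Set ℕ) ⊆ G → s.card = n → c s = j) →
        ¬ TuringReducible (fun m : ℕ => Part.some (Set.indicator G (fun _ => (1 : ℕ)) m))
            (fun m : ℕ => Part.some (Set.indicator H (fun _ => (1 : ℕ)) m)) := by
  intro n k hn _
  obtain ⟨i, rfl⟩ : ∃ i, n = i + 2 := ⟨n - 2, by omega⟩
  obtain ⟨f, hf⟩ := Pool.Agent.H83.Soc.mainG i k 1
  refine ⟨f, fun d => ?_⟩
  obtain ⟨H, d0, -, h1, h2, -, h3⟩ := hf d fun _ => 0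
  refine ⟨H, h1, ⟨d0, h2⟩, fun G hG ⟨j, hj⟩ hr => ?_⟩
  obtain ⟨t, t1, t2, t3⟩ := h3 G j _ _ (fun m hm => by simp [hm])
    (fun m hm => by simp [hm]) (fun m => by by_cases h : m ∈ G <;> simp [h]) hr hG
  exact t3 (hj t t1 t2)

end Pool.Agent.Results.MP_40eef6_lc.MoreColours
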